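import Pool.Agent.helper99.WN.SpecA

set_option autoImplicit false

open Classical

namespace Pool.Agent.WN

theorem WP_per {A : Type} {W : ℤ → A} {D : ℤ} (h : ∀ i : ℤ, W (i + D) = W i) (i q : ℤ) :
    W (i + q * D) = W i := by
  induction q using Int.induction_on with
  | zero => simp
  | succ q ih =>
    have h1 := h (i + q * D)
    rw [ih] at h1
    rw [← h1]
    congr 1
    ring
  | pred q ih =>
    have h1 := h (i + (-(q : ℤ) - 1) * D)
    rw [← h1, ← ih]
    congr 1
    ring

theorem WP : WP_stmt := by
  intro k W N hN hper hred hmin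
  have hN' : (0 : ℤ) < N := by exact_mod_cast hN
  have hmod : ∀ i t : ℤ, W (i + t) = W (i + ((t % N).toNat : ℤ)) := by
    intro i t
    have h1 : 0 ≤ t % (N : ℤ) := Int.emod_nonneg _ hN'.ne'
    rw [Int.toNat_of_nonneg h1]
    have h2 := WP_per hper (i + t % N) (t / N)
    rw [← h2]
    congr 1
    have h3 := Int.emod_add_mul_ediv t N
    linarith [mul_comm (N : ℤ) (t / N)]
  have hlt : ∀ t : ℤ, (t % N).toNat < N := by
    intro t
    have h1 : 0 ≤ t % (N : ℤ) := Int.emod_nonneg _ hN'.ne'
    have h2 := Int.emod_lt_of_pos t hN'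
    omega
  refine ⟨hN, hper, hred, fun i j h => ?_, fun i j h => ?_⟩
  · have hD : ∀ s : ℤ, W (s + (i - j)) = W s := by
      intro s
      have h1 : s + (i - j) = i + (s - j) := by ring
      have h2 : s = j + (s - j) := by ring
      rw [h1, hmod, h _ (hlt _), ← hmod, ← h2]
    set d := Int.gcd (i - j) N with hd
    have hdN : (d : ℤ) ∣ N := Int.gcd_dvd_right _ _
    have hdD : (d : ℤ) ∣ i - j := Int.gcd_dvd_left _ _
    have hdN' : d ∣ N := by exact_mod_cast hdN
    have hpos : 0 < d := Nat.pos_of_dvd_of_pos hdN' hN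
    have hperd : ∀ s : ℤ, W (s + d) = W s := by
      intro s
      have h1 := Int.gcd_eq_gcd_ab (i - j) N
      rw [← hd] at h1
      rw [h1]
      have h2 := WP_per hD s (Int.gcdA (i - j) N)
      have h3 := WP_per hper (s + Int.gcdA (i - j) N * (i - j)) (Int.gcdB (i - j) N)
      rw [← h2, ← h3]
      congr 1
      ring
    have hnot : ¬ d < N := fun hlt' => hmin d hpos hdN' hlt' hperd
    have hle := Nat.le_of_dvd hN hdN'
    have : d = N := by omega
    rw [← this]
    exact hdD
  · have hall : ∀ s : ℤ, W s = iv (W (i + j - s)) := by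
      intro s
      have h1 : s = i + (s - i) := by ring
      have h4 := h _ (hlt (s - i))
      have h5 : W (j - (((s - i) % N).toNat : ℤ)) = W (i + j - s) := by
        have h6 : 0 ≤ (s - i) % (N : ℤ) := Int.emod_nonneg _ hN'.ne'
        rw [Int.toNat_of_nonneg h6]
        have h7 := WP_per hper (i + j - s) ((s - i) / N)
        rw [← h7]
        congr 1
        have h3 := Int.emod_add_mul_ediv (s - i) N
        linarith [mul_comm (N : ℤ) ((s - i) / N)]
      rw [h5] at h4
      rw [← h4, ← hmod, ← h1]
    rcases Int.even_or_odd' (i + j) with ⟨s, hs | hs⟩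
    · have h1 := hall s
      have h2 : i + j - s = s := by omega
      rw [h2] at h1
      exact iv_ne _ h1.symm
    · have h1 := hall (s + 1)
      have h2 : i + j - (s + 1) = s := by omega
      rw [h2] at h1
      exact hred s h1

end Pool.Agent.WN
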